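import Mathlib

/-!
Principal coefficient cluster patterns and their g-vectors.
-/

set_option autoImplicit false

namespace Pool.Agent.Lib.MP_51fc07_al

open MvPolynomial

/-- matrix mutation in direction `k` -/
def mu {n : ℕ} (k : Fin n) (B : Matrix (Fin n) (Fin n) ℤ) : Matrix (Fin n) (Fin n) ℤ :=
  Matrix.of (fun i j => if i = k ∨ j = k then -B i j
    else B i j + max (B i k) 0 * max (B k j) 0 - max (-B i k) 0 * max (-B k j) 0)

/-- the matrix reached from `B` along the path with labels `w` -/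
def muw {n : ℕ} (B : Matrix (Fin n) (Fin n) ℤ) (w : List (Fin n)) : Matrix (Fin n) (Fin n) ℤ :=
  List.foldl (fun M k => mu k M) B w

/-- sign-skew-symmetric -/
def SSS {n : ℕ} (M : Matrix (Fin n) (Fin n) ℤ) : Prop :=
  ∀ i j : Fin n, (M i j = 0 ∧ M j i = 0) ∨ M i j * M j i < 0

/-- totally sign-skew-symmetric -/
def TSSS {n : ℕ} (B : Matrix (Fin n) (Fin n) ℤ) : Prop :=
  ∀ w : List (Fin n), SSS (muw B w)

/-- the field of rational functions in `x_1, …, x_n` (`Sum.inl`) and `y_1, …, y_n` (`Sum.inr`) -/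
abbrev KK (n : ℕ) : Type := FractionRing (MvPolynomial (Fin n ⊕ Fin n) ℚ)

/-- the variables as rational functions -/
noncomputable def X' {n : ℕ} (i : Fin n ⊕ Fin n) : KK n :=
  algebraMap (MvPolynomial (Fin n ⊕ Fin n) ℚ) (KK n) (X i)

/-- seeds: cluster, and extended exchange matrix (`Sum.inl` rows: exchange matrix, `Sum.inr` rows:
coefficients) -/
abbrev Seed (n : ℕ) : Type := (Fin n → KK n) × (Fin n ⊕ Fin n → Fin n → ℤ)

/-- seed mutation -/
noncomputable def step {n : ℕ} (s : Seed n) (k : Fin n) : Seed n :=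
  ((fun j => if j = k then
      ((∏ i : Fin n ⊕ Fin n, (Sum.elim s.1 (fun m => X' (Sum.inr m)) i) ^ (s.2 i k).toNat)
       + ∏ i : Fin n ⊕ Fin n, (Sum.elim s.1 (fun m => X' (Sum.inr m)) i) ^ (-s.2 i k).toNat)
      / s.1 k
    else s.1 j),
   (fun i j => if i = Sum.inl k ∨ j = k then -s.2 i j
      else s.2 i j + max (s.2 i k) 0 * max (s.2 (Sum.inl k) j) 0
        - max (-s.2 i k) 0 * max (-s.2 (Sum.inl k) j) 0))

/-- the initial seed with principal coefficients -/
noncomputable def init {n : ℕ} (B : Matrix (Fin n) (Fin n) ℤ) : Seed n :=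
  ((fun j => X' (Sum.inl j)),
   (Sum.elim (fun i j => B i j) (fun i j => if i = j then (1 : ℤ) else 0)))

/-- the seed at the end of the path `w` from the initial seed with exchange matrix `B` -/
noncomputable def seed {n : ℕ} (B : Matrix (Fin n) (Fin n) ℤ) (w : List (Fin n)) : Seed n :=
  List.foldl step (init B) w

/-- cluster variables -/
noncomputable def clvar {n : ℕ} (B : Matrix (Fin n) (Fin n) ℤ) (w : List (Fin n)) (a : Fin n) :
    KK n := (seed B w).1 a

/-- the grading: `deg x_i = e_i`, `deg y_j = - (j-th column of B)` -/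
def wt {n : ℕ} (B : Matrix (Fin n) (Fin n) ℤ) : Fin n ⊕ Fin n → (Fin n → ℤ) :=
  Sum.elim (fun i => (Pi.single i (1 : ℤ) : Fin n → ℤ)) (fun j i => -B i j)

/-- the rational function `f` is non-zero and homogeneous of degree `g` -/
def IsG {n : ℕ} (B : Matrix (Fin n) (Fin n) ℤ) (f : KK n) (g : Fin n → ℤ) : Prop :=
  ∃ P Q : MvPolynomial (Fin n ⊕ Fin n) ℚ, ∃ p q : Fin n → ℤ,
    P ≠ 0 ∧ Q ≠ 0 ∧ P.IsWeightedHomogeneous (wt B) p ∧ Q.IsWeightedHomogeneous (wt B) q ∧
    p = q + g ∧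
    f * algebraMap (MvPolynomial (Fin n ⊕ Fin n) ℚ) (KK n) Q
      = algebraMap (MvPolynomial (Fin n ⊕ Fin n) ℚ) (KK n) P

/-- a positive version of `IsG` -/
def IsGp {n : ℕ} (B : Matrix (Fin n) (Fin n) ℤ) (f : KK n) (g : Fin n → ℤ) : Prop :=
  ∃ P Q : MvPolynomial (Fin n ⊕ Fin n) ℚ, ∃ p q : Fin n → ℤ,
    0 < eval (fun _ => 1) P ∧ 0 < eval (fun _ => 1) Q ∧
    P.IsWeightedHomogeneous (wt B) p ∧ Q.IsWeightedHomogeneous (wt B) q ∧
    p = q + g ∧
    f * algebraMap (MvPolynomial (Fin n ⊕ Fin n) ℚ) (KK n) Q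
      = algebraMap (MvPolynomial (Fin n ⊕ Fin n) ℚ) (KK n) P

section IsG

variable {n : ℕ} {B : Matrix (Fin n) (Fin n) ℤ}

theorem ne_zero_of_eval {P : MvPolynomial (Fin n ⊕ Fin n) ℚ} (h : 0 < eval (fun _ => 1) P) :
    P ≠ 0 := by
  rintro rfl
  simp at h

theorem algMap_ne_zero {P : MvPolynomial (Fin n ⊕ Fin n) ℚ} (h : P ≠ 0) :
    algebraMap (MvPolynomial (Fin n ⊕ Fin n) ℚ) (KK n) P ≠ 0 := by
  intro h1
  exact h ((IsFractionRing.injective (MvPolynomial (Fin n ⊕ Fin n) ℚ) (KK n))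
    (by rw [h1, map_zero]))

theorem IsGp.isG {f : KK n} {g : Fin n → ℤ} (h : IsGp B f g) : IsG B f g := by
  obtain ⟨P, Q, p, q, h1, h2, h3, h4, h5, h6⟩ := h
  exact ⟨P, Q, p, q, ne_zero_of_eval h1, ne_zero_of_eval h2, h3, h4, h5, h6⟩

theorem IsG.unique {f : KK n} {g g' : Fin n → ℤ} (h : IsG B f g) (h' : IsG B f g') : g = g' := by
  obtain ⟨P, Q, p, q, h1, h2, h3, h4, h5, h6⟩ := h
  obtain ⟨P', Q', p', q', h1', h2', h3', h4', h5', h6'⟩ := h'
  have key : P * Q' = P' * Q := by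
    apply IsFractionRing.injective (MvPolynomial (Fin n ⊕ Fin n) ℚ) (KK n)
    rw [map_mul, map_mul, ← h6, ← h6']
    ring
  have e1 : (P * Q').IsWeightedHomogeneous (wt B) (p + q') := h3.mul h4'
  have e2 : (P * Q').IsWeightedHomogeneous (wt B) (p' + q) := by rw [key]; exact h3'.mul h4
  have e3 := IsWeightedHomogeneous.inj_right (mul_ne_zero h1 h2') e1 e2
  rw [h5, h5'] at e3
  have e4 : q + q' + g = q + q' + g' := by
    calc q + q' + g = q + g + q' := by abel
      _ = q' + g' + q := e3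
      _ = q + q' + g' := by abel
  exact add_left_cancel e4

theorem IsGp.ne_zero {f : KK n} {g : Fin n → ℤ} (h : IsGp B f g) : f ≠ 0 := by
  obtain ⟨P, Q, p, q, h1, h2, h3, h4, h5, h6⟩ := h
  rintro rfl
  rw [zero_mul] at h6
  exact algMap_ne_zero (ne_zero_of_eval h1) h6.symm

theorem IsGp.mul {f f' : KK n} {g g' : Fin n → ℤ} (h : IsGp B f g) (h' : IsGp B f' g') :
    IsGp B (f * f') (g + g') := by
  obtain ⟨P, Q, p, q, h1, h2, h3, h4, h5, h6⟩ := h
  obtain ⟨P', Q', p', q', h1', h2', h3', h4', h5', h6'⟩ := h'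
  refine ⟨P * P', Q * Q', p + p', q + q', ?_, ?_, h3.mul h3', h4.mul h4', ?_, ?_⟩
  · rw [map_mul]; exact mul_pos h1 h1'
  · rw [map_mul]; exact mul_pos h2 h2'
  · rw [h5, h5']; abel
  · rw [map_mul, map_mul, ← h6, ← h6']; ring

theorem IsGp.add {f f' : KK n} {g : Fin n → ℤ} (h : IsGp B f g) (h' : IsGp B f' g) :
    IsGp B (f + f') g := by
  obtain ⟨P, Q, p, q, h1, h2, h3, h4, h5, h6⟩ := h
  obtain ⟨P', Q', p', q', h1', h2', h3', h4', h5', h6'⟩ := h'
  refine ⟨P * Q' + P' * Q, Q * Q', p + q', q + q', ?_, ?_, ?_, h4.mul h4', ?_, ?_⟩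
  · rw [map_add, map_mul, map_mul]; positivity
  · rw [map_mul]; exact mul_pos h2 h2'
  · refine (h3.mul h4').add ?_
    have e : p + q' = p' + q := by rw [h5, h5']; abel
    rw [e]; exact h3'.mul h4
  · rw [h5]; abel
  · rw [map_mul, map_add, map_mul, map_mul, ← h6, ← h6']; ring

theorem IsGp.inv {f : KK n} {g : Fin n → ℤ} (h : IsGp B f g) : IsGp B f⁻¹ (-g) := by
  have hf := h.ne_zero
  obtain ⟨P, Q, p, q, h1, h2, h3, h4, h5, h6⟩ := h
  refine ⟨Q, P, q, p, h2, h1, h4, h3, ?_, ?_⟩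
  · rw [h5]; abel
  · rw [← h6]; field_simp

theorem IsGp.div {f f' : KK n} {g g' : Fin n → ℤ} (h : IsGp B f g) (h' : IsGp B f' g') :
    IsGp B (f / f') (g - g') := by
  rw [div_eq_mul_inv, sub_eq_add_neg]
  exact h.mul h'.inv

theorem IsGp.one : IsGp B (1 : KK n) 0 := by
  refine ⟨1, 1, 0, 0, ?_, ?_, isWeightedHomogeneous_one ℚ (wt B), isWeightedHomogeneous_one ℚ (wt B),
    by simp, by simp⟩
  · simp
  · simp

theorem IsGp.pow {f : KK n} {g : Fin n → ℤ} (h : IsGp B f g) (m : ℕ) :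
    IsGp B (f ^ m) ((m : ℤ) • g) := by
  induction m with
  | zero => simpa using IsGp.one
  | succ m ih =>
    rw [pow_succ]
    have := ih.mul h
    have e : (((m + 1 : ℕ) : ℤ) • g) = (m : ℤ) • g + g := by
      push_cast
      rw [add_smul, one_smul]
    rw [e]; exact this

theorem IsGp.prod {ι : Type*} (s : Finset ι) (f : ι → KK n) (g : ι → (Fin n → ℤ))
    (h : ∀ i ∈ s, IsGp B (f i) (g i)) : IsGp B (∏ i ∈ s, f i) (∑ i ∈ s, g i) := by
  classical
  induction s using Finset.induction_on with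
  | empty => simpa using IsGp.one
  | insert a s ha ih =>
    rw [Finset.prod_insert ha, Finset.sum_insert ha]
    exact (h a (Finset.mem_insert_self a s)).mul
      (ih (fun i hi => h i (Finset.mem_insert_of_mem hi)))

theorem IsGp.var (i : Fin n ⊕ Fin n) : IsGp B (X' i : KK n) (wt B i) := by
  refine ⟨X i, 1, wt B i, 0, by simp, by simp, isWeightedHomogeneous_X ℚ (wt B) i,
    isWeightedHomogeneous_one ℚ (wt B), by simp, by simp [X']⟩

end IsG

/-- the combinatorial data: exchange matrix, C-matrix, and the family of g-vectors -/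
structure St (n : ℕ) where
  B : Matrix (Fin n) (Fin n) ℤ
  C : Matrix (Fin n) (Fin n) ℤ
  G : Matrix (Fin n) (Fin n) ℤ

/-- mutation of the combinatorial data. The `a`-th column of `G` is the `a`-th g-vector. -/
def cstep {n : ℕ} (B0 : Matrix (Fin n) (Fin n) ℤ) (s : St n) (k : Fin n) : St n where
  B := mu k s.B
  C := Matrix.of (fun j l => if l = k then -s.C j l
    else s.C j l + max (s.C j k) 0 * max (s.B k l) 0 - max (-s.C j k) 0 * max (-s.B k l) 0)
  G := Matrix.of (fun i a => if a = k then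
      -s.G i k + ∑ l, max (s.B l k) 0 * s.G i l - ∑ j, max (s.C j k) 0 * B0 i j
    else s.G i a)

/-- initial combinatorial data -/
def cinit {n : ℕ} (B0 : Matrix (Fin n) (Fin n) ℤ) : St n := ⟨B0, 1, 1⟩

/-- the combinatorial data at the end of the path `w` -/
def cst {n : ℕ} (B0 : Matrix (Fin n) (Fin n) ℤ) (w : List (Fin n)) : St n :=
  List.foldl (cstep B0) (cinit B0) w

theorem cst_append {n : ℕ} (B0 : Matrix (Fin n) (Fin n) ℤ) (w : List (Fin n)) (k : Fin n) :
    cst B0 (w ++ [k]) = cstep B0 (cst B0 w) k := by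
  simp [cst, List.foldl_append]

theorem cst_B {n : ℕ} (B0 : Matrix (Fin n) (Fin n) ℤ) (w : List (Fin n)) :
    (cst B0 w).B = muw B0 w := by
  induction w using List.reverseRecOn with
  | nil => rfl
  | append_singleton w k ih =>
    rw [cst_append]
    show mu k (cst B0 w).B = _
    rw [ih]
    simp [muw, List.foldl_append]

theorem mu_diag {n : ℕ} (k : Fin n) {B : Matrix (Fin n) (Fin n) ℤ} (h : ∀ i, B i i = 0)
    (h2 : ∀ i, B i k * B k i ≤ 0) (i : Fin n) : mu k B i i = 0 := by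
  unfold mu
  simp only [Matrix.of_apply]
  by_cases hi : i = k
  · simp [hi, h k]
  · simp only [hi, or_self, if_false, h i, zero_add]
    have := h2 i
    rcases lt_trichotomy (B i k) 0 with h3 | h3 | h3
    · have h4 : 0 ≤ B k i := by nlinarith
      rw [max_eq_right h3.le, max_eq_right (by linarith : -B k i ≤ 0)]; simp
    · rw [h3]; simp
    · have h4 : B k i ≤ 0 := by nlinarith
      rw [max_eq_right h4, max_eq_right (by linarith : -B i k ≤ 0)]; simp

end Pool.Agent.Lib.MP_51fc07_al
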