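import Pool.Agent.Lib.MP_51fc07_al.Rec

/-!
Dualities between C- and G-matrices under sign-coherence, and the change of the initial seed.
-/

set_option autoImplicit false

namespace Pool.Agent.Lib.MP_51fc07_al

variable {n : ℕ}

/-- `ε` is a sign of the `k`-th column of `M` -/
def VS (ε : ℤ) (M : Matrix (Fin n) (Fin n) ℤ) (k : Fin n) : Prop :=
  (ε = 1 ∨ ε = -1) ∧ ∀ j, 0 ≤ ε * M j k

/-- row matrices -/
def Er (k : Fin n) (ε : ℤ) (B : Matrix (Fin n) (Fin n) ℤ) : Matrix (Fin n) (Fin n) ℤ :=
  Matrix.of (fun i l => if i = k then (if l = k then -1 else max (ε * B k l) 0)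
    else if i = l then 1 else 0)

theorem Er_mul_apply (k : Fin n) (ε : ℤ) (B M : Matrix (Fin n) (Fin n) ℤ) (i l : Fin n)
    (hi : i ≠ k) : (Er k ε B * M) i l = M i l := by
  rw [Matrix.mul_apply]
  simp [Er, hi]

theorem mul_Er_apply (k : Fin n) (ε : ℤ) (B M : Matrix (Fin n) (Fin n) ℤ) (i l : Fin n) :
    (M * Er k ε B) i l = if l = k then -M i k else M i l + M i k * max (ε * B k l) 0 := by
  rw [Matrix.mul_apply]
  have e : ∀ a, M i a * Er k ε B a l =
      (if a = l then (if l = k then 0 else M i a) else 0)
        + (if a = k then M i a * (if l = k then -1 else max (ε * B k l) 0) else 0) := by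
    intro a
    simp only [Er, Matrix.of_apply]
    by_cases h1 : a = k
    · subst h1
      simp only [if_true]
      by_cases h2 : l = a
      · simp [h2]
      · simp [h2, Ne.symm h2]
    · simp only [h1, if_false, add_zero]
      by_cases h2 : a = l
      · subst h2; simp [h1]
      · simp [h2]
  rw [Finset.sum_congr rfl (fun a _ => e a), Finset.sum_add_distrib]
  simp only [Finset.sum_ite_eq', Finset.mem_univ, if_true]
  by_cases h : l = k
  · simp [h]
  · simp [h]

theorem Er_mul_Er (k : Fin n) (ε : ℤ) (B : Matrix (Fin n) (Fin n) ℤ) :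
    Er k ε B * Er k ε B = 1 := by
  ext i l
  rw [mul_Er_apply, Matrix.one_apply]
  simp only [Er, Matrix.of_apply, if_true]
  by_cases h1 : i = k
  · subst h1
    by_cases h2 : l = i
    · simp [h2]
    · simp [h2, Ne.symm h2]
  · by_cases h2 : l = k
    · subst h2; simp [h1]
    · simp [h1, h2]

/-- column matrices -/
def Fc (k : Fin n) (ε : ℤ) (B : Matrix (Fin n) (Fin n) ℤ) : Matrix (Fin n) (Fin n) ℤ :=
  (Er k ε (-B.transpose)).transpose

theorem mul_Fc_apply (k : Fin n) (ε : ℤ) (B M : Matrix (Fin n) (Fin n) ℤ) (hkk : B k k = 0)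
    (i l : Fin n) : (M * Fc k ε B) i l =
      if l = k then -M i k + ∑ a, max (-ε * B a k) 0 * M i a else M i l := by
  rw [Matrix.mul_apply]
  by_cases h : l = k
  · subst h
    simp only [if_true]
    have e : ∀ a, M i a * Fc l ε B a l = max (-ε * B a l) 0 * M i a
        + (if a = l then -M i a else 0) := by
      intro a
      simp only [Fc, Matrix.transpose_apply, Er, Matrix.of_apply, if_true]
      by_cases h1 : a = l
      · subst h1; simp [hkk]
      · simp only [h1, if_false, Matrix.neg_apply, Matrix.transpose_apply, add_zero]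
        rw [mul_comm]
        congr 2
        ring
    rw [Finset.sum_congr rfl (fun a _ => e a), Finset.sum_add_distrib]
    simp only [Finset.sum_ite_eq', Finset.mem_univ, if_true]
    ring
  · simp only [h, if_false]
    have e : ∀ a, M i a * Fc k ε B a l = if a = l then M i a else 0 := by
      intro a
      simp only [Fc, Matrix.transpose_apply, Er, Matrix.of_apply, h, if_false]
      by_cases h1 : a = l
      · subst h1; simp
      · simp [h1, Ne.symm h1]
    rw [Finset.sum_congr rfl (fun a _ => e a)]
    simp

theorem ErT_mul_apply (j : Fin n) (ε : ℤ) (B M : Matrix (Fin n) (Fin n) ℤ) (x y : Fin n) :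
    ((Er j ε B.transpose).transpose * M) x y =
      if x = j then -M j y else M x y + max (ε * B x j) 0 * M j y := by
  have h : ((Er j ε B.transpose).transpose * M) x y
      = (M.transpose * Er j ε B.transpose) y x := by
    rw [← Matrix.transpose_apply ((Er j ε B.transpose).transpose * M), Matrix.transpose_mul,
      Matrix.transpose_transpose]
  rw [h, mul_Er_apply]
  simp only [Matrix.transpose_apply]
  by_cases hx : x = j
  · simp [hx]
  · simp only [hx, if_false]; ring

theorem VS.max_eq {ε : ℤ} {M : Matrix (Fin n) (Fin n) ℤ} {k : Fin n} (h : VS ε M k) (j : Fin n)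
    (b : ℤ) : max (M j k) 0 * max b 0 - max (-M j k) 0 * max (-b) 0
      = M j k * max (ε * b) 0 := by
  obtain ⟨h1, h2⟩ := h
  have h3 := h2 j
  rcases h1 with rfl | rfl
  · have h4 : 0 ≤ M j k := by linarith
    rw [max_eq_left h4, max_eq_right (by linarith : -M j k ≤ 0)]; simp
  · have h4 : M j k ≤ 0 := by linarith
    rw [max_eq_right h4, max_eq_left (by linarith : 0 ≤ -M j k)]; simp

theorem C_step {B0 : Matrix (Fin n) (Fin n) ℤ} {s : St n} {k : Fin n} {ε : ℤ}
    (h : VS ε s.C k) : (cstep B0 s k).C = s.C * Er k ε s.B := by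
  ext i l
  rw [mul_Er_apply]
  simp only [cstep, Matrix.of_apply]
  by_cases hl : l = k
  · simp [hl]
  · simp only [hl, if_false]
    have := h.max_eq i (s.B k l)
    linarith

theorem G_step {B0 : Matrix (Fin n) (Fin n) ℤ} {s : St n} {k : Fin n} {ε : ℤ}
    (h : VS ε s.C k) (hd : s.G * s.B = B0 * s.C) (hkk : s.B k k = 0) :
    (cstep B0 s k).G = s.G * Fc k ε s.B := by
  ext i l
  rw [mul_Fc_apply _ _ _ _ hkk]
  simp only [cstep, Matrix.of_apply]
  by_cases hl : l = k
  · simp only [hl, if_true]
    have hG := congrFun (congrFun hd i) k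
    rw [Matrix.mul_apply, Matrix.mul_apply] at hG
    obtain ⟨h1, h2⟩ := h
    rcases h1 with rfl | rfl
    · have e1 : ∑ j, max (s.C j k) 0 * B0 i j = ∑ j, B0 i j * s.C j k := by
        refine Finset.sum_congr rfl (fun j _ => ?_)
        have h3 := h2 j
        rw [max_eq_left (by linarith)]; ring
      rw [e1, ← hG]
      have e2 : ∑ l, max (s.B l k) 0 * s.G i l - ∑ j, s.G i j * s.B j k
          = ∑ a, max (-1 * s.B a k) 0 * s.G i a := by
        rw [← Finset.sum_sub_distrib]
        refine Finset.sum_congr rfl (fun a _ => ?_)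
        have := max_sub_max (s.B a k)
        rw [neg_one_mul]
        have h4 : max (-s.B a k) 0 = max (s.B a k) 0 - s.B a k := by linarith
        rw [h4]; ring
      linarith
    · have e1 : ∑ j, max (s.C j k) 0 * B0 i j = 0 := by
        apply Finset.sum_eq_zero
        intro j _
        have h3 := h2 j
        rw [max_eq_right (by linarith)]; ring
      rw [e1]
      simp
  · simp [hl]

/-- mutation is an involution -/
theorem mu_mu (k : Fin n) (B : Matrix (Fin n) (Fin n) ℤ) : mu k (mu k B) = B := by
  ext i j
  simp only [mu, Matrix.of_apply, true_or, or_true, if_true]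
  by_cases h : i = k ∨ j = k
  · simp [h]
  · simp only [h, if_false, neg_neg]; ring

theorem mu_transpose (k : Fin n) (B : Matrix (Fin n) (Fin n) ℤ) :
    mu k B.transpose = (mu k B).transpose := by
  ext i j
  simp only [mu, Matrix.of_apply, Matrix.transpose_apply]
  by_cases h : i = k ∨ j = k
  · simp [h, or_comm.mp h]
  · have h' : ¬ (j = k ∨ i = k) := fun h1 => h (or_comm.mp h1)
    simp only [h, h', if_false]; ring

theorem mu_neg (k : Fin n) (B : Matrix (Fin n) (Fin n) ℤ) : mu k (-B) = -(mu k B) := by
  ext i j
  simp only [mu, Matrix.of_apply, Matrix.neg_apply, neg_neg]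
  by_cases h : i = k ∨ j = k
  · simp [h]
  · simp only [h, if_false]; ring

theorem muw_append (B : Matrix (Fin n) (Fin n) ℤ) (v w : List (Fin n)) :
    muw B (v ++ w) = muw (muw B v) w := by
  simp [muw, List.foldl_append]

theorem muw_cons (B : Matrix (Fin n) (Fin n) ℤ) (k : Fin n) (w : List (Fin n)) :
    muw B (k :: w) = muw (mu k B) w := rfl

theorem muw_concat (B : Matrix (Fin n) (Fin n) ℤ) (k : Fin n) (w : List (Fin n)) :
    muw B (w ++ [k]) = mu k (muw B w) := by
  rw [muw_append]; rfl

theorem muw_transpose (B : Matrix (Fin n) (Fin n) ℤ) (w : List (Fin n)) :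
    muw B.transpose w = (muw B w).transpose := by
  induction w using List.reverseRecOn with
  | nil => rfl
  | append_singleton w k ih => rw [muw_concat, muw_concat, ih, mu_transpose]

theorem muw_neg (B : Matrix (Fin n) (Fin n) ℤ) (w : List (Fin n)) :
    muw (-B) w = -(muw B w) := by
  induction w using List.reverseRecOn with
  | nil => rfl
  | append_singleton w k ih => rw [muw_concat, muw_concat, ih, mu_neg]

theorem muw_reverse (B : Matrix (Fin n) (Fin n) ℤ) (w : List (Fin n)) :
    muw (muw B w) w.reverse = B := by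
  induction w using List.reverseRecOn with
  | nil => rfl
  | append_singleton w k ih =>
    rw [List.reverse_append, muw_concat]
    show muw (mu k (mu k (muw B w))) w.reverse = B
    rw [mu_mu, ih]

theorem TSSS.transpose {B : Matrix (Fin n) (Fin n) ℤ} (h : TSSS B) : TSSS B.transpose := by
  intro w i j
  rw [muw_transpose]
  exact h w j i

theorem TSSS.neg {B : Matrix (Fin n) (Fin n) ℤ} (h : TSSS B) : TSSS (-B) := by
  intro w i j
  rw [muw_neg]
  rcases h w i j with h1 | h1
  · left; simp [h1.1, h1.2]
  · right; simpa using h1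

theorem TSSS.mu {B : Matrix (Fin n) (Fin n) ℤ} (h : TSSS B) (k : Fin n) : TSSS (mu k B) := by
  intro w
  exact h (k :: w)

/-- The hypotheses of the duality theorem: a class `BB` of matrices, and a set `L` of letters. -/
structure GoodClass (L : Fin n → Prop) (BB : Matrix (Fin n) (Fin n) ℤ → Prop) : Prop where
  tsss : ∀ B, BB B → TSSS B
  cl_mu : ∀ B, BB B → ∀ k, L k → BB (mu k B)
  cl_neg : ∀ B, BB B → BB (-B)
  cl_tr : ∀ B, BB B → BB B.transpose
  sign : ∀ B, BB B → ∀ w : List (Fin n), (∀ x ∈ w, L x) → ∀ k, L k →
    ∃ ε : ℤ, VS ε (cst B w).C k ∧ VS ε (cst (-B.transpose) w).C k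
  supp : ∀ B, BB B → ∀ w : List (Fin n), (∀ x ∈ w, L x) → ∀ k, L k → ∀ j,
    (cst B w).C j k = 0 ↔ (cst (-B.transpose) w).C j k = 0

section Duality

variable {L : Fin n → Prop} {BB : Matrix (Fin n) (Fin n) ℤ → Prop}

theorem GoodClass.nt (hC : GoodClass L BB) {B : Matrix (Fin n) (Fin n) ℤ} (hB : BB B) :
    BB (-B.transpose) := hC.cl_neg _ (hC.cl_tr _ hB)

theorem GoodClass.cl_muw (hC : GoodClass L BB) {B : Matrix (Fin n) (Fin n) ℤ} (hB : BB B)
    {w : List (Fin n)} (hw : ∀ x ∈ w, L x) : BB (muw B w) := by
  induction w using List.reverseRecOn with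
  | nil => exact hB
  | append_singleton w k ih =>
    rw [muw_concat]
    exact hC.cl_mu _ (ih (fun x hx => hw x (List.mem_append_left _ hx))) k (hw k (by simp))

theorem GoodClass.G_append (hC : GoodClass L BB) {B : Matrix (Fin n) (Fin n) ℤ} (hB : BB B)
    {w : List (Fin n)} {k : Fin n} {ε : ℤ} (h : VS ε (cst B w).C k) :
    (cst B (w ++ [k])).G = (cst B w).G * Fc k ε (muw B w) := by
  rw [cst_append, ← cst_B]
  exact G_step h (duality1 (hC.tsss B hB).diag w) (by rw [cst_B]; exact (hC.tsss B hB).diag w k)

theorem C_append {B : Matrix (Fin n) (Fin n) ℤ}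
    {w : List (Fin n)} {k : Fin n} {ε : ℤ} (h : VS ε (cst B w).C k) :
    (cst B (w ++ [k])).C = (cst B w).C * Er k ε (muw B w) := by
  rw [cst_append, ← cst_B]
  exact C_step h

/-- the second duality -/
theorem GoodClass.dual2 (hC : GoodClass L BB) {B : Matrix (Fin n) (Fin n) ℤ} (hB : BB B)
    {w : List (Fin n)} (hw : ∀ x ∈ w, L x) :
    (cst (-B.transpose) w).C * (cst B w).G.transpose = 1 := by
  induction w using List.reverseRecOn with
  | nil => simp [cst, cinit]
  | append_singleton w k ih =>
    have hw' : ∀ x ∈ w, L x := fun x hx => hw x (List.mem_append_left _ hx)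
    have hk : L k := hw k (by simp)
    obtain ⟨ε, h1, h2⟩ := hC.sign B hB w hw' k hk
    rw [hC.G_append hB h1, C_append h2, Matrix.transpose_mul]
    have e : (Fc k ε (muw B w)).transpose
        = Er k ε (muw (-B.transpose) w) := by
      unfold Fc
      rw [Matrix.transpose_transpose, muw_neg, muw_transpose]
    rw [e, Matrix.mul_assoc, ← Matrix.mul_assoc (Er k ε _) (Er k ε _), Er_mul_Er, Matrix.one_mul]
    exact ih hw'

theorem GoodClass.dual2' (hC : GoodClass L BB) {B : Matrix (Fin n) (Fin n) ℤ} (hB : BB B)
    {w : List (Fin n)} (hw : ∀ x ∈ w, L x) :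
    (cst B w).C * (cst (-B.transpose) w).G.transpose = 1 := by
  have := hC.dual2 (hC.nt hB) hw
  have e : -(-B.transpose).transpose = B := by
    rw [Matrix.transpose_neg, Matrix.transpose_transpose, neg_neg]
  rwa [e] at this

/-- the third duality -/
def T3 (B : Matrix (Fin n) (Fin n) ℤ) (w : List (Fin n)) : Prop :=
  (cst B w).G.transpose = (cst (muw B w).transpose w.reverse).C

theorem VS.unique {ε ε' : ℤ} {M : Matrix (Fin n) (Fin n) ℤ} {k : Fin n} (h : VS ε M k)
    (h' : VS ε' M k) {j : Fin n} (hj : M j k ≠ 0) : ε = ε' := by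
  obtain ⟨h1, h2⟩ := h
  obtain ⟨h1', h2'⟩ := h'
  have h3 := h2 j
  have h4 := h2' j
  rcases h1 with rfl | rfl <;> rcases h1' with rfl | rfl
  · rfl
  · exfalso; apply hj; linarith
  · exfalso; apply hj; linarith
  · rfl

theorem VS.eq_of_one {ε c : ℤ} {M : Matrix (Fin n) (Fin n) ℤ} {k j : Fin n} (h : VS ε M k)
    (hM : M j k = c) (hc : c = 1 ∨ c = -1) : ε = c := by
  obtain ⟨h1, h2⟩ := h
  have h3 := h2 j
  rw [hM] at h3
  rcases h1 with rfl | rfl <;> rcases hc with rfl | rfl <;> first | rfl | (exfalso; linarith)

/-- consequence of the third duality for the initial seed mutation of `G` -/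
theorem GoodClass.G_cons (hC : GoodClass L BB) {B : Matrix (Fin n) (Fin n) ℤ} (hB : BB B)
    {v : List (Fin n)} {j : Fin n} (hj : L j) (hv : ∀ x ∈ v, L x)
    (h1 : T3 B (j :: v)) (h2 : T3 (mu j B) v) :
    ∃ ε0 : ℤ, VS ε0 (cst (mu j B) v).G.transpose j ∧
      (cst B (j :: v)).G = (Er j ε0 (mu j B).transpose).transpose * (cst (mu j B) v).G := by
  set B' := mu j B with hB'
  set B'' := muw B' v with hB''
  have hBB'' : BB B'' := hC.cl_muw (hC.cl_mu B hB j hj) hv
  obtain ⟨ε0, h3, _⟩ := hC.sign B''.transpose (hC.cl_tr _ hBB'') v.reverse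
    (fun x hx => hv x (List.mem_reverse.mp hx)) j hj
  refine ⟨ε0, ?_, ?_⟩
  · rw [h2]; exact h3
  · have e1 : muw B (j :: v) = B'' := rfl
    unfold T3 at h1 h2
    rw [e1, List.reverse_cons, C_append h3] at h1
    have e2 : muw B''.transpose v.reverse = B'.transpose := by
      rw [muw_transpose, hB'', muw_reverse]
    have h2' : (cst B' v).G.transpose = (cst B''.transpose v.reverse).C := h2
    rw [e2, ← h2'] at h1
    have h4 := congrArg Matrix.transpose h1
    rwa [Matrix.transpose_transpose, Matrix.transpose_mul, Matrix.transpose_transpose] at h4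

theorem GoodClass.C_cons (hC : GoodClass L BB) {B : Matrix (Fin n) (Fin n) ℤ} (hB : BB B)
    {v : List (Fin n)} {j : Fin n} (hj : L j) (hv : ∀ x ∈ v, L x)
    (h1 : T3 (-B.transpose) (j :: v)) (h2 : T3 (-(mu j B).transpose) v) :
    ∃ ε0 : ℤ, (cst B (j :: v)).C = Er j ε0 (-(mu j B)) * (cst (mu j B) v).C := by
  have e1 : mu j (-B.transpose) = -(mu j B).transpose := by rw [mu_neg, mu_transpose]
  have h2' : T3 (mu j (-B.transpose)) v := by rw [e1]; exact h2
  obtain ⟨ε0, _, h3⟩ := hC.G_cons (hC.nt hB) hj hv h1 h2'
  refine ⟨ε0, ?_⟩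
  rw [e1] at h3
  have e2 : (-(mu j B).transpose).transpose = -(mu j B) := by
    rw [Matrix.transpose_neg, Matrix.transpose_transpose]
  rw [e2] at h3
  have hw : ∀ x ∈ j :: v, L x := by
    intro x hx
    rcases List.mem_cons.mp hx with rfl | hx
    · exact hj
    · exact hv x hx
  have d1 := hC.dual2' hB hw
  have d2 := hC.dual2' (hC.cl_mu B hB j hj) hv
  have e3 : (cst (-B.transpose) (j :: v)).G.transpose
      = (cst (-(mu j B).transpose) v).G.transpose * Er j ε0 (-(mu j B)) := by
    rw [h3, Matrix.transpose_mul, Matrix.transpose_transpose]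
  rw [e3] at d1
  -- C(B;jv) * (G^T * E) = 1, C(B';v) * G^T = 1
  set X := (cst B (j :: v)).C
  set Y := (cst (mu j B) v).C
  set Z := (cst (-(mu j B).transpose) v).G.transpose
  set E := Er j ε0 (-(mu j B))
  have d2' : Z * Y = 1 := mul_eq_one_comm.mp d2
  have hEE : E * E = 1 := Er_mul_Er _ _ _
  calc X = X * (Z * (E * E) * Y) := by rw [hEE, Matrix.mul_one, d2', Matrix.mul_one]
    _ = (X * (Z * E)) * (E * Y) := by simp only [Matrix.mul_assoc]
    _ = E * Y := by rw [d1, Matrix.one_mul]

theorem unit_cases {c d : ℤ} (h : c * d = 1) : c = 1 ∨ c = -1 := by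
  exact Int.eq_one_or_neg_one_of_mul_eq_one h

/-- inductive step of the third duality -/
theorem GoodClass.T3_step (hC : GoodClass L BB) {B : Matrix (Fin n) (Fin n) ℤ} (hB : BB B)
    {v : List (Fin n)} {j k : Fin n} (hj : L j) (hk : L k) (hv : ∀ x ∈ v, L x)
    (h1 : T3 B (j :: v)) (h2 : T3 (mu j B) v) (h3 : T3 (mu j B) (v ++ [k]))
    (h4 : T3 (-B.transpose) (j :: v)) (h5 : T3 (-(mu j B).transpose) v) :
    T3 B (j :: v ++ [k]) := by
  set B' := mu j B with hB'
  set B'' := muw B' v with hB''
  have hBB' : BB B' := hC.cl_mu B hB j hj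
  have hBB'' : BB B'' := hC.cl_muw hBB' hv
  have hBB3 : BB (mu k B'') := hC.cl_mu _ hBB'' k hk
  have hjv : ∀ x ∈ j :: v, L x := by
    intro x hx
    rcases List.mem_cons.mp hx with rfl | hx
    · exact hj
    · exact hv x hx
  obtain ⟨ε0, hε0, hG1⟩ := hC.G_cons hB hj hv h1 h2
  obtain ⟨ε0', hC1⟩ := hC.C_cons hB hj hv h4 h5
  rw [← hB'] at hC1 hG1 hε0
  obtain ⟨ε, hε, _⟩ := hC.sign B hB (j :: v) hjv k hk
  obtain ⟨ε2, hε2, hε2'⟩ := hC.sign B' hBB' v hv k hk
  have hG2 := hC.G_append hB hε
  have hG3 := hC.G_append hBB' hε2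
  have e1 : muw B (j :: v) = B'' := rfl
  rw [e1] at hG2
  rw [← hB''] at hG3
  -- the right hand side
  have hkv : ∀ x ∈ (v ++ [k]).reverse, L x := by
    intro x hx
    rw [List.mem_reverse, List.mem_append] at hx
    rcases hx with hx | hx
    · exact hv x hx
    · rw [List.mem_singleton.mp hx]; exact hk
  obtain ⟨ε1, hε1, _⟩ := hC.sign (mu k B'').transpose (hC.cl_tr _ hBB3) (v ++ [k]).reverse hkv j hj
  have e2 : muw B (j :: v ++ [k]) = mu k B'' := by
    rw [muw_concat, e1]
  have e3 : (j :: v ++ [k]).reverse = (v ++ [k]).reverse ++ [j] := by simp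
  have e4 : muw (mu k B'').transpose (v ++ [k]).reverse = B'.transpose := by
    rw [muw_transpose]
    congr 1
    have : mu k B'' = muw B' (v ++ [k]) := by rw [muw_concat]
    rw [this, muw_reverse]
  unfold T3 at h3
  have e5 : muw B' (v ++ [k]) = mu k B'' := by rw [muw_concat]
  rw [e5] at h3
  rw [← h3] at hε1
  unfold T3
  rw [e2, e3, C_append (by rw [← h3]; exact hε1), e4, ← h3, hG2, hG1, hG3]
  -- transposed goal
  have goal : (Er j ε0 B'.transpose).transpose * (cst B' v).G * Fc k ε B''
      = (Er j ε1 B'.transpose).transpose * ((cst B' v).G * Fc k ε2 B'') := by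
    set Gv := (cst B' v).G with hGv
    rw [hG3] at hε1
    have hkk : B'' k k = 0 := (hC.tsss B' hBB').diag v k
    have d2 := hC.dual2 hBB' hv
    rw [← hGv] at d2
    have d2c : Gv.transpose * (cst (-B'.transpose) v).C = 1 := mul_eq_one_comm.mp d2
    have dC := hC.dual2' hBB' hv
    have dCc : (cst (-B'.transpose) v).G.transpose * (cst B' v).C = 1 := mul_eq_one_comm.mp dC
    by_cases hcase : ∃ l, l ≠ k ∧ Gv j l ≠ 0
    · -- generic case
      obtain ⟨l, hlk, hl⟩ := hcase
      have s1 : ε1 = ε0 := by
        have a1 : (Gv * Fc k ε2 B'').transpose l j = Gv j l := by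
          rw [Matrix.transpose_apply, mul_Fc_apply _ _ _ _ hkk, if_neg hlk]
        obtain ⟨p1, p2⟩ := hε1
        obtain ⟨q1, q2⟩ := hε0
        have r1 := p2 l
        have r2 := q2 l
        rw [a1] at r1
        rw [Matrix.transpose_apply] at r2
        rcases p1 with rfl | rfl <;> rcases q1 with rfl | rfl
        · rfl
        · exfalso; apply hl; linarith
        · exfalso; apply hl; linarith
        · rfl
      have s2 : ∃ i, i ≠ j ∧ (cst B' v).C i k ≠ 0 := by
        by_contra hcon
        push Not at hcon
        have hcon' : ∀ i, i ≠ j → (cst (-B'.transpose) v).C i k = 0 := fun i hi =>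
          (hC.supp B' hBB' v hv k hk i).mp (hcon i hi)
        -- Gᵀ Ĉ = 1 at entry (l,k)
        have hlk' := congrFun (congrFun d2c l) k
        rw [Matrix.mul_apply, Matrix.one_apply_ne hlk] at hlk'
        have hsum : ∑ a, Gv.transpose l a * (cst (-B'.transpose) v).C a k
            = Gv.transpose l j * (cst (-B'.transpose) v).C j k := by
          apply Finset.sum_eq_single j
          · intro b _ hb; rw [hcon' b hb, mul_zero]
          · intro h; exact absurd (Finset.mem_univ j) h
        rw [hsum, Matrix.transpose_apply] at hlk'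
        rcases mul_eq_zero.mp hlk' with h | h
        · exact hl h
        · -- column k of Ĉ is zero, impossible
          have hkk' := congrFun (congrFun d2c k) k
          rw [Matrix.mul_apply, Matrix.one_apply_eq] at hkk'
          have : ∑ a, Gv.transpose k a * (cst (-B'.transpose) v).C a k = 0 := by
            apply Finset.sum_eq_zero
            intro a _
            by_cases ha : a = j
            · rw [ha, h, mul_zero]
            · rw [hcon' a ha, mul_zero]
          rw [this] at hkk'
          exact zero_ne_one hkk'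
      obtain ⟨i, hij, hi⟩ := s2
      have s3 : (cst B (j :: v)).C i k = (cst B' v).C i k := by
        rw [hC1, Er_mul_apply _ _ _ _ _ _ hij]
      have s4 : ε = ε2 := by
        obtain ⟨p1, p2⟩ := hε
        obtain ⟨q1, q2⟩ := hε2
        have r1 := p2 i
        have r2 := q2 i
        rw [s3] at r1
        rcases p1 with rfl | rfl <;> rcases q1 with rfl | rfl
        · rfl
        · exfalso; apply hi; linarith
        · exfalso; apply hi; linarith
        · rfl
      rw [s1, s4, Matrix.mul_assoc]
    · -- exceptional case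
      push Not at hcase
      -- c = Gv j k
      have hjj := congrFun (congrFun d2 j) j
      rw [Matrix.mul_apply, Matrix.one_apply_eq] at hjj
      have hsum : ∑ a, (cst (-B'.transpose) v).C j a * Gv.transpose a j
          = (cst (-B'.transpose) v).C j k * Gv j k := by
        rw [Finset.sum_eq_single k]
        · rfl
        · intro b _ hb; rw [Matrix.transpose_apply, hcase b hb, mul_zero]
        · intro h; exact absurd (Finset.mem_univ k) h
      rw [hsum] at hjj
      have hc1 : (cst (-B'.transpose) v).C j k = 1 ∨ (cst (-B'.transpose) v).C j k = -1 :=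
        unit_cases hjj
      have hcG : Gv j k = (cst (-B'.transpose) v).C j k := by
        rcases hc1 with h | h
        · rw [h] at hjj ⊢; linarith
        · rw [h] at hjj ⊢; linarith
      have hcol : ∀ i, i ≠ j → (cst (-B'.transpose) v).C i k = 0 := by
        intro i hi
        have hij := congrFun (congrFun d2 i) j
        rw [Matrix.mul_apply, Matrix.one_apply_ne hi] at hij
        have hsum2 : ∑ a, (cst (-B'.transpose) v).C i a * Gv.transpose a j
            = (cst (-B'.transpose) v).C i k * Gv j k := by
          rw [Finset.sum_eq_single k]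
          · rfl
          · intro b _ hb; rw [Matrix.transpose_apply, hcase b hb, mul_zero]
          · intro h; exact absurd (Finset.mem_univ k) h
        rw [hsum2, hcG] at hij
        rcases mul_eq_zero.mp hij with h | h
        · exact h
        · rcases hc1 with h' | h' <;> rw [h'] at h <;> norm_num at h
      have hcolC : ∀ i, i ≠ j → (cst B' v).C i k = 0 := fun i hi =>
        (hC.supp B' hBB' v hv k hk i).mpr (hcol i hi)
      -- c = ε2
      have t1 : ε2 = (cst (-B'.transpose) v).C j k := hε2'.eq_of_one rfl hc1
      -- d = C j k = ε2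
      have hkk2 := congrFun (congrFun dCc k) k
      rw [Matrix.mul_apply, Matrix.one_apply_eq] at hkk2
      have hsum3 : ∑ a, (cst (-B'.transpose) v).G.transpose k a * (cst B' v).C a k
          = (cst (-B'.transpose) v).G.transpose k j * (cst B' v).C j k := by
        apply Finset.sum_eq_single j
        · intro b _ hb; rw [hcolC b hb, mul_zero]
        · intro h; exact absurd (Finset.mem_univ j) h
      rw [hsum3] at hkk2
      have hd1 : (cst B' v).C j k = 1 ∨ (cst B' v).C j k = -1 := by
        rw [mul_comm] at hkk2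
        exact unit_cases hkk2
      have t2 : ε2 = (cst B' v).C j k := hε2.eq_of_one rfl hd1
      have hε2u : ε2 = 1 ∨ ε2 = -1 := hε2.1
      have t3 : Gv j k = ε2 := by rw [hcG, ← t1]
      -- ε0 = ε2
      have t4 : ε0 = ε2 := hε0.eq_of_one (j := k) (by rw [Matrix.transpose_apply]; exact t3) hε2u
      -- ε1 = - ε2
      have t5 : ε1 = -ε2 := by
        refine hε1.eq_of_one (j := k) ?_ ?_
        · rw [Matrix.transpose_apply, mul_Fc_apply _ _ _ _ hkk, if_pos rfl, t3]
          have : ∑ a, max (-ε2 * B'' a k) 0 * Gv j a = 0 := by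
            apply Finset.sum_eq_zero
            intro a _
            by_cases ha : a = k
            · rw [ha, hkk]; simp
            · rw [hcase a ha, mul_zero]
          rw [this, add_zero]
        · rcases hε2u with h | h <;> rw [h] <;> simp
      -- ε = - ε2
      have t6 : ε = -ε2 := by
        refine hε.eq_of_one (j := j) ?_ ?_
        · rw [hC1, Matrix.mul_apply]
          have : ∑ a, Er j ε0' (-B') j a * (cst B' v).C a k
              = Er j ε0' (-B') j j * (cst B' v).C j k := by
            apply Finset.sum_eq_single j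
            · intro b _ hb; rw [hcolC b hb, mul_zero]
            · intro h; exact absurd (Finset.mem_univ j) h
          rw [this, ← t2]
          simp [Er]
        · rcases hε2u with h | h <;> rw [h] <;> simp
      rw [t4, t5, t6, ← Matrix.mul_assoc]
      -- first duality at column k
      have hdual := duality1 (hC.tsss B' hBB').diag v
      have hGB : ∀ x, ∑ a, Gv x a * B'' a k = B' x j * ε2 := by
        intro x
        have h := congrFun (congrFun hdual x) k
        rw [Matrix.mul_apply, Matrix.mul_apply, cst_B] at h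
        rw [← hGv, ← hB''] at h
        rw [h, t2]
        apply Finset.sum_eq_single j
        · intro b _ hb; rw [hcolC b hb, mul_zero]
        · intro h; exact absurd (Finset.mem_univ j) h
      ext x y
      rw [mul_Fc_apply _ _ _ _ hkk, mul_Fc_apply _ _ _ _ hkk]
      by_cases hy : y = k
      · subst hy
        simp only [if_true, ErT_mul_apply]
        by_cases hx : x = j
        · subst hx
          simp only [if_true]
          congr 1
          apply Finset.sum_congr rfl
          intro a _
          by_cases ha : a = y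
          · rw [ha, hkk]; simp
          · rw [hcase a ha]; simp
        · simp only [hx, if_false]
          have u1 : ∑ a, max (- -ε2 * B'' a y) 0 * (Gv x a + max (ε2 * B' x j) 0 * Gv j a)
              = ∑ a, max (ε2 * B'' a y) 0 * Gv x a := by
            apply Finset.sum_congr rfl
            intro a _
            by_cases ha : a = y
            · rw [ha, hkk]; simp
            · rw [hcase a ha, neg_neg]; simp
          have u2 : ∑ a, max (-ε2 * B'' a y) 0 * (Gv x a + max (-ε2 * B' x j) 0 * Gv j a)
              = ∑ a, max (-ε2 * B'' a y) 0 * Gv x a := by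
            apply Finset.sum_congr rfl
            intro a _
            by_cases ha : a = y
            · rw [ha, hkk]; simp
            · rw [hcase a ha]; simp
          rw [u1, u2, t3]
          have u3 : ∑ a, max (ε2 * B'' a y) 0 * Gv x a - ∑ a, max (-ε2 * B'' a y) 0 * Gv x a
              = ε2 * (B' x j * ε2) := by
            rw [← hGB x, ← Finset.sum_sub_distrib, Finset.mul_sum]
            apply Finset.sum_congr rfl
            intro a _
            rw [← sub_mul, neg_mul, max_sub_max]; ring
          have u4 := max_sub_max (ε2 * B' x j)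
          rw [← neg_mul] at u4
          have u5 : ε2 * ε2 = 1 := by rcases hε2u with h | h <;> rw [h] <;> norm_num
          have u6 : max (ε2 * B' x j) 0 = ε2 * B' x j + max (-ε2 * B' x j) 0 := by linarith
          rw [u6]
          have u7 : ε2 * (B' x j * ε2) = B' x j := by
            calc ε2 * (B' x j * ε2) = B' x j * (ε2 * ε2) := by ring
              _ = B' x j := by rw [u5, mul_one]
          rw [u7] at u3
          have u8 : (ε2 * B' x j + max (-ε2 * B' x j) 0) * ε2
              = B' x j + max (-ε2 * B' x j) 0 * ε2 := by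
            calc (ε2 * B' x j + max (-ε2 * B' x j) 0) * ε2
                = B' x j * (ε2 * ε2) + max (-ε2 * B' x j) 0 * ε2 := by ring
              _ = _ := by rw [u5, mul_one]
          rw [u8]
          linarith
      · simp only [hy, if_false, ErT_mul_apply]
        by_cases hx : x = j
        · simp [hx]
        · simp only [hx, if_false]
          rw [hcase y hy]; simp
  have goal' := congrArg Matrix.transpose goal
  rw [Matrix.transpose_mul, Matrix.transpose_mul, Matrix.transpose_mul, Matrix.transpose_mul,
    Matrix.transpose_transpose, Matrix.transpose_transpose] at goal'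
  rw [Matrix.transpose_mul, Matrix.transpose_mul, Matrix.transpose_mul,
    Matrix.transpose_transpose]
  exact goal'

theorem GoodClass.T3_all (hC : GoodClass L BB) (m : ℕ) : ∀ w : List (Fin n), w.length ≤ m →
    (∀ x ∈ w, L x) → ∀ B, BB B → T3 B w := by
  induction m with
  | zero =>
    intro w hw _ B _
    have : w = [] := List.length_eq_zero_iff.mp (Nat.le_zero.mp hw)
    subst this
    simp [T3, cst, cinit]
  | succ m ih =>
    intro w hw hL B hB
    rcases w with _ | ⟨j, w'⟩
    · simp [T3, cst, cinit]
    · rcases List.eq_nil_or_concat w' with h | ⟨v, k, h⟩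
      · subst h
        have hj : L j := hL j (by simp)
        obtain ⟨ε, h1, _⟩ := hC.sign B hB [] (by simp) j hj
        obtain ⟨ε', h2, _⟩ := hC.sign (mu j B).transpose (hC.cl_tr _ (hC.cl_mu B hB j hj)) [] (by simp)
          j hj
        have e1 : ε = 1 := h1.eq_of_one (j := j) (by simp [cst, cinit]) (Or.inl rfl)
        have e2 : ε' = 1 := h2.eq_of_one (j := j) (by simp [cst, cinit]) (Or.inl rfl)
        have g1 := hC.G_append hB h1
        have g2 := C_append h2
        rw [List.nil_append] at g1 g2
        unfold T3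
        have e3 : muw B [j] = mu j B := rfl
        rw [e3, List.reverse_singleton, g1, g2]
        subst e1; subst e2
        simp only [cst, cinit, List.foldl_nil, Matrix.one_mul, muw, Fc,
          Matrix.transpose_transpose]
        ext i l
        simp only [Er, Matrix.of_apply, mu, Matrix.transpose_apply, Matrix.neg_apply, or_true,
          if_true]
      · have h' : w' = v ++ [k] := by simpa using h
        subst h'
        have hlen : v.length + 2 ≤ m + 1 := by simpa using hw
        have hj : L j := hL j (by simp)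
        have hk : L k := hL k (by simp)
        have hv : ∀ x ∈ v, L x := fun x hx => hL x (by simp [hx])
        have hjv : ∀ x ∈ j :: v, L x := by
          intro x hx
          rcases List.mem_cons.mp hx with rfl | hx
          · exact hj
          · exact hv x hx
        have hvk : ∀ x ∈ v ++ [k], L x := by
          intro x hx
          rcases List.mem_append.mp hx with hx | hx
          · exact hv x hx
          · rw [List.mem_singleton.mp hx]; exact hk
        have hB' := hC.cl_mu B hB j hj
        exact hC.T3_step hB hj hk hv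
          (ih (j :: v) (by simp; omega) hjv B hB)
          (ih v (by omega) hv _ hB')
          (ih (v ++ [k]) (by simp; omega) hvk _ hB')
          (ih (j :: v) (by simp; omega) hjv _ (hC.nt hB))
          (ih v (by omega) hv _ (hC.nt hB'))

/-- the change of the initial seed -/
theorem GoodClass.G_change (hC : GoodClass L BB) {B : Matrix (Fin n) (Fin n) ℤ} (hB : BB B)
    {w : List (Fin n)} (hw : ∀ x ∈ w, L x) {k : Fin n} (hk : L k) (a : Fin n) :
    (cst (mu k B) (k :: w)).G k a = -(cst B w).G k a ∧
    ∀ i, i ≠ k → (cst (mu k B) (k :: w)).G i a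
      = (cst B w).G i a + max (B i k) 0 * (cst B w).G k a - B i k * min ((cst B w).G k a) 0 := by
  have hB' := hC.cl_mu B hB k hk
  have e1 : mu k (mu k B) = B := mu_mu k B
  have hkw : ∀ x ∈ k :: w, L x := by
    intro x hx
    rcases List.mem_cons.mp hx with rfl | hx
    · exact hk
    · exact hw x hx
  have h1 := hC.T3_all (k :: w).length (k :: w) le_rfl hkw (mu k B) hB'
  have h2 := hC.T3_all w.length w le_rfl hw B hB
  obtain ⟨ε, hε, hG⟩ := hC.G_cons hB' hk hw h1 (by rw [e1]; exact h2)
  rw [e1] at hε hG
  constructor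
  · rw [hG, ErT_mul_apply, if_pos rfl]
  · intro i hi
    rw [hG, ErT_mul_apply, if_neg hi]
    obtain ⟨h3, h4⟩ := hε
    have h5 := h4 a
    rw [Matrix.transpose_apply] at h5
    rcases h3 with rfl | rfl
    · have h6 : 0 ≤ (cst B w).G k a := by linarith
      rw [min_eq_right h6, one_mul]; ring
    · have h6 : (cst B w).G k a ≤ 0 := by linarith
      rw [min_eq_left h6, neg_one_mul]
      have := max_sub_max (B i k)
      have h7 : max (-B i k) 0 = max (B i k) 0 - B i k := by linarith
      rw [h7]; ring

end Duality

end Pool.Agent.Lib.MP_51fc07_al
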