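import Pool.Agent.Lib.MP_51fc07_al.Defs

/-!
The recursion for g-vectors, and the first duality `G B_t = B_0 C`.
-/

set_option autoImplicit false

namespace Pool.Agent.Lib.MP_51fc07_al

open MvPolynomial

variable {n : ℕ}

theorem max_sub_max (x : ℤ) : max x 0 - max (-x) 0 = x := by
  rcases le_total 0 x with h | h
  · rw [max_eq_left h, max_eq_right (by linarith)]; ring
  · rw [max_eq_right h, max_eq_left (by linarith)]; ring

/-- the first duality -/
theorem duality1_step {B0 : Matrix (Fin n) (Fin n) ℤ} {s : St n} (k : Fin n)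
    (hkk : s.B k k = 0) (h : s.G * s.B = B0 * s.C) :
    (cstep B0 s k).G * (cstep B0 s k).B = B0 * (cstep B0 s k).C := by
  have hent : ∀ i j, ∑ a, s.G i a * s.B a j = ∑ a, B0 i a * s.C a j := by
    intro i j
    have := congrFun (congrFun h i) j
    simpa [Matrix.mul_apply] using this
  ext i j
  rw [Matrix.mul_apply, Matrix.mul_apply]
  -- abbreviations
  set Sp := ∑ a, max (s.B a k) 0 * s.G i a with hSp
  set Sm := ∑ a, max (-s.B a k) 0 * s.G i a with hSm
  set Tp := ∑ a, max (s.C a k) 0 * B0 i a with hTp
  set Tm := ∑ a, max (-s.C a k) 0 * B0 i a with hTm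
  have hS : Sp - Sm = Tp - Tm := by
    have e1 : Sp - Sm = ∑ a, s.G i a * s.B a k := by
      rw [hSp, hSm, ← Finset.sum_sub_distrib]
      refine Finset.sum_congr rfl (fun a _ => ?_)
      rw [← sub_mul, max_sub_max]; ring
    have e2 : Tp - Tm = ∑ a, B0 i a * s.C a k := by
      rw [hTp, hTm, ← Finset.sum_sub_distrib]
      refine Finset.sum_congr rfl (fun a _ => ?_)
      rw [← sub_mul, max_sub_max]; ring
    rw [e1, e2, hent]
  by_cases hj : j = k
  · subst hj
    have e1 : ∀ a, (cstep B0 s j).G i a * (cstep B0 s j).B a j = -(s.G i a * s.B a j) := by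
      intro a
      simp only [cstep, mu, Matrix.of_apply, or_true, if_true]
      by_cases ha : a = j
      · subst ha; rw [hkk]; ring
      · simp only [ha, if_false]; ring
    have e2 : ∀ a, B0 i a * (cstep B0 s j).C a j = -(B0 i a * s.C a j) := by
      intro a
      simp only [cstep, Matrix.of_apply, if_true]; ring
    rw [Finset.sum_congr rfl (fun a _ => e1 a), Finset.sum_congr rfl (fun a _ => e2 a),
      Finset.sum_neg_distrib, Finset.sum_neg_distrib, hent]
  · have e1 : ∀ a, (cstep B0 s k).G i a * (cstep B0 s k).B a j =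
        s.G i a * s.B a j + (max (s.B a k) 0 * s.G i a) * max (s.B k j) 0
          - (max (-s.B a k) 0 * s.G i a) * max (-s.B k j) 0
          + (if a = k then (Tp - Sp) * s.B k j else 0) := by
      intro a
      simp only [cstep, mu, Matrix.of_apply, hj, or_false]
      by_cases ha : a = k
      · subst ha
        simp only [if_true]
        rw [← hSp, ← hTp, hkk]
        simp only [max_self, neg_zero, zero_mul]
        ring
      · simp only [ha, if_false]; ring
    have e2 : ∀ a, B0 i a * (cstep B0 s k).C a j =
        B0 i a * s.C a j + (max (s.C a k) 0 * B0 i a) * max (s.B k j) 0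
          - (max (-s.C a k) 0 * B0 i a) * max (-s.B k j) 0 := by
      intro a
      simp only [cstep, Matrix.of_apply, hj, if_false]; ring
    rw [Finset.sum_congr rfl (fun a _ => e1 a), Finset.sum_congr rfl (fun a _ => e2 a),
      Finset.sum_add_distrib, Finset.sum_sub_distrib, Finset.sum_sub_distrib,
      Finset.sum_add_distrib, Finset.sum_add_distrib, ← Finset.sum_mul, ← Finset.sum_mul,
      ← Finset.sum_mul, ← Finset.sum_mul, hent, ← hSp, ← hSm, ← hTp, ← hTm]
    simp only [Finset.sum_ite_eq', Finset.mem_univ, if_true]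
    have hb := max_sub_max (s.B k j)
    have h1 : max (s.B k j) 0 = s.B k j + max (-s.B k j) 0 := by linarith
    have h2 : Sp = Tp - Tm + Sm := by linarith
    rw [h1, h2]; ring

theorem duality1 {B0 : Matrix (Fin n) (Fin n) ℤ}
    (hd : ∀ (w : List (Fin n)) (i : Fin n), muw B0 w i i = 0) (w : List (Fin n)) :
    (cst B0 w).G * (cst B0 w).B = B0 * (cst B0 w).C := by
  induction w using List.reverseRecOn with
  | nil => simp [cst, cinit]
  | append_singleton w k ih =>
    rw [cst_append]
    exact duality1_step k (by rw [cst_B]; exact hd w k) ih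

theorem TSSS.diag {B0 : Matrix (Fin n) (Fin n) ℤ} (h : TSSS B0) (w : List (Fin n)) (i : Fin n) :
    muw B0 w i i = 0 := by
  rcases h w i i with h1 | h1
  · exact h1.1
  · exact absurd h1 (not_lt.mpr (mul_self_nonneg _))

theorem seed_append (B0 : Matrix (Fin n) (Fin n) ℤ) (w : List (Fin n)) (k : Fin n) :
    seed B0 (w ++ [k]) = step (seed B0 w) k := by
  simp [seed, List.foldl_append]

theorem seed_matrix (B0 : Matrix (Fin n) (Fin n) ℤ) (w : List (Fin n)) :
    (∀ i j, (seed B0 w).2 (Sum.inl i) j = (cst B0 w).B i j) ∧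
    (∀ i j, (seed B0 w).2 (Sum.inr i) j = (cst B0 w).C i j) := by
  induction w using List.reverseRecOn with
  | nil =>
    constructor
    · intro i j; rfl
    · intro i j
      simp [seed, init, cst, cinit, Matrix.one_apply]
  | append_singleton w k ih =>
    rw [seed_append, cst_append]
    constructor
    · intro i j
      simp only [step, cstep, mu, Matrix.of_apply, Sum.inl.injEq, ih.1]
    · intro i j
      simp only [step, cstep, Matrix.of_apply, reduceCtorEq, false_or, ih.1, ih.2]

theorem toNat_smul (m : ℤ) (g : Fin n → ℤ) (i : Fin n) :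
    (((m.toNat : ℕ) : ℤ) • g) i = max m 0 * g i := by
  rw [Int.toNat_eq_max]; simp

/-- the g-vectors are given by the recursion -/
theorem isGp_clvar {B0 : Matrix (Fin n) (Fin n) ℤ}
    (hd : ∀ (w : List (Fin n)) (i : Fin n), muw B0 w i i = 0) (w : List (Fin n)) :
    ∀ a, IsGp B0 (clvar B0 w a) (fun i => (cst B0 w).G i a) := by
  induction w using List.reverseRecOn with
  | nil =>
    intro a
    have := IsGp.var (B := B0) (Sum.inl a)
    have e : wt B0 (Sum.inl a) = fun i => (cst B0 []).G i a := by
      funext i
      simp only [wt, Sum.elim_inl, cst, List.foldl_nil, cinit]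
      rw [Matrix.one_apply, Pi.single_apply]
    rw [e] at this
    exact this
  | append_singleton w k ih =>
    intro a
    have hcl : clvar B0 (w ++ [k]) a = (step (seed B0 w) k).1 a := by
      unfold clvar; rw [seed_append]
    rw [hcl, cst_append]
    by_cases ha : a = k
    · subst ha
      -- degrees of the extended cluster
      set deg : Fin n ⊕ Fin n → (Fin n → ℤ) :=
        Sum.elim (fun l i => (cst B0 w).G i l) (fun m i => -B0 i m) with hdeg
      have hvar : ∀ i : Fin n ⊕ Fin n,
          IsGp B0 (Sum.elim (seed B0 w).1 (fun m => X' (Sum.inr m)) i) (deg i) := by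
        rintro (i | i)
        · exact ih i
        · exact IsGp.var (B := B0) (Sum.inr i)
      have h1 := IsGp.prod (B := B0) Finset.univ
        (fun i => (Sum.elim (seed B0 w).1 (fun m => X' (Sum.inr m)) i)
          ^ ((seed B0 w).2 i a).toNat)
        (fun i => ((((seed B0 w).2 i a).toNat : ℕ) : ℤ) • deg i) (fun i _ => (hvar i).pow _)
      have h2 := IsGp.prod (B := B0) Finset.univ
        (fun i => (Sum.elim (seed B0 w).1 (fun m => X' (Sum.inr m)) i)
          ^ (-(seed B0 w).2 i a).toNat)
        (fun i => (((-(seed B0 w).2 i a).toNat : ℕ) : ℤ) • deg i) (fun i _ => (hvar i).pow _)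
      have hd1 : ∀ i, (∑ x : Fin n ⊕ Fin n, ((((seed B0 w).2 x a).toNat : ℕ) : ℤ) • deg x) i
          = ∑ l, max ((cst B0 w).B l a) 0 * (cst B0 w).G i l
            - ∑ j, max ((cst B0 w).C j a) 0 * B0 i j := by
        intro i
        rw [Fintype.sum_sum_type]
        simp only [Pi.add_apply, Finset.sum_apply, toNat_smul, (seed_matrix B0 w).1,
          (seed_matrix B0 w).2, hdeg, Sum.elim_inl, Sum.elim_inr, mul_neg,
          Finset.sum_neg_distrib]
        ring
      have hd2 : ∀ i, (∑ x : Fin n ⊕ Fin n, (((-(seed B0 w).2 x a).toNat : ℕ) : ℤ) • deg x) i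
          = ∑ l, max (-(cst B0 w).B l a) 0 * (cst B0 w).G i l
            - ∑ j, max (-(cst B0 w).C j a) 0 * B0 i j := by
        intro i
        rw [Fintype.sum_sum_type]
        simp only [Pi.add_apply, Finset.sum_apply, toNat_smul, (seed_matrix B0 w).1,
          (seed_matrix B0 w).2, hdeg, Sum.elim_inl, Sum.elim_inr, mul_neg,
          Finset.sum_neg_distrib]
        ring
      have hdd : (∑ x : Fin n ⊕ Fin n, (((-(seed B0 w).2 x a).toNat : ℕ) : ℤ) • deg x)
          = ∑ x : Fin n ⊕ Fin n, ((((seed B0 w).2 x a).toNat : ℕ) : ℤ) • deg x := by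
        funext i
        rw [hd1, hd2]
        have hG := congrFun (congrFun (duality1 hd w) i) a
        rw [Matrix.mul_apply, Matrix.mul_apply] at hG
        have e1 : ∑ l, max ((cst B0 w).B l a) 0 * (cst B0 w).G i l
            - ∑ l, max (-(cst B0 w).B l a) 0 * (cst B0 w).G i l
            = ∑ l, (cst B0 w).G i l * (cst B0 w).B l a := by
          rw [← Finset.sum_sub_distrib]
          refine Finset.sum_congr rfl (fun l _ => ?_)
          rw [← sub_mul, max_sub_max]; ring
        have e2 : ∑ l, max ((cst B0 w).C l a) 0 * B0 i l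
            - ∑ l, max (-(cst B0 w).C l a) 0 * B0 i l
            = ∑ l, B0 i l * (cst B0 w).C l a := by
          rw [← Finset.sum_sub_distrib]
          refine Finset.sum_congr rfl (fun l _ => ?_)
          rw [← sub_mul, max_sub_max]; ring
        linarith
      rw [hdd] at h2
      have h3 := (h1.add h2).div (ih a)
      have hstep : (step (seed B0 w) a).1 a =
          ((∏ i : Fin n ⊕ Fin n, (Sum.elim (seed B0 w).1 (fun m => X' (Sum.inr m)) i)
            ^ ((seed B0 w).2 i a).toNat)
          + ∏ i : Fin n ⊕ Fin n, (Sum.elim (seed B0 w).1 (fun m => X' (Sum.inr m)) i)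
            ^ (-(seed B0 w).2 i a).toNat) / clvar B0 w a := by
        simp only [step, if_true]; rfl
      rw [hstep]
      have hfin : (fun i => (cstep B0 (cst B0 w) a).G i a) =
          (∑ x : Fin n ⊕ Fin n, ((((seed B0 w).2 x a).toNat : ℕ) : ℤ) • deg x)
            - fun i => (cst B0 w).G i a := by
        funext i
        rw [Pi.sub_apply, hd1]
        simp only [cstep, Matrix.of_apply, if_true]
        ring
      rw [hfin]
      exact h3
    · have e1 : (step (seed B0 w) k).1 a = clvar B0 w a := by
        simp only [step, ha, if_false]; rfl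
      have e2 : (fun i => (cstep B0 (cst B0 w) k).G i a) = fun i => (cst B0 w).G i a := by
        funext i
        simp only [cstep, Matrix.of_apply, ha, if_false]
      rw [e1, e2]
      exact ih a

end Pool.Agent.Lib.MP_51fc07_al
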